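import Pool.Agent.K.MP_c18ee8_co.C2

namespace Pool.Agent.Results.MP_c18ee8_co.Kakeya

open Pool.Agent.P.MP_c18ee8_co

theorem result : ∃ C : ℝ, ∀ n : ℕ, 1 ≤ n →
    (kakeya3 n : ℝ) / 2 ≤ 6 * (n : ℝ) - upperIR (queensGraph n) ∧
    6 * (n : ℝ) - upperIR (queensGraph n) ≤
      C * ∑ j ∈ Finset.range (Nat.log 2 n + 1), (kakeya3 (2 ^ j) : ℝ) := by
  refine ⟨44000, fun n hn => ⟨?_, ?_⟩⟩
  · have h : (kakeya3 n : ℝ) + 2 * upperIR (queensGraph n) ≤ 12 * n := by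
      exact_mod_cast kakeya3_lower hn
    linarith
  · have h : 6 * (n : ℝ) ≤ upperIR (queensGraph n) +
        44000 * ∑ j ∈ Finset.range (Nat.log 2 n + 1), (kakeya3 (2 ^ j) : ℝ) := by
      exact_mod_cast kakeya3_upper n
    linarith

end Pool.Agent.Results.MP_c18ee8_co.Kakeya
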