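import Pool.Agent.K.MP_c18ee8_co.C6

namespace Pool.Agent.Results.MP_c18ee8_co.LowerGauss

open Pool.Agent.P.MP_c18ee8_co

theorem result : ∀ θ : ℝ, Real.log 4 / Real.log 12 < θ → ∃ C : ℝ, ∀ n : ℕ, 1 ≤ n →
    6 * (n : ℝ) - C * (n : ℝ) ^ θ ≤ upperIR (queensGraph n) :=
  gauss_lower

end Pool.Agent.Results.MP_c18ee8_co.LowerGauss
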