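import Pool.Agent.P.MP_c18ee8_co.UdFinal

namespace Pool.Agent.Results.MP_c18ee8_co.UpperDomination

open Pool.Agent.P.MP_c18ee8_co

theorem result : ∀ ε : ℝ, 0 < ε → ∃ C : ℝ, ∀ n : ℕ, 1 ≤ n →
    6 * (n : ℝ) - Ud.upperDom (queensGraph n) ≤
      C * (n : ℝ) ^ ε * (6 * (n : ℝ) - upperIR (queensGraph n)) :=
  Ud.upperDom_IR

end Pool.Agent.Results.MP_c18ee8_co.UpperDomination
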