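import Pool.Agent.K.MP_c18ee8_co.C9

namespace Pool.Agent.Results.MP_c18ee8_co.UpperEntropy

open Pool.Agent.P.MP_c18ee8_co

theorem result : ∀ n : ℕ, 50000 ≤ n →
    (upperIR (queensGraph n) : ℝ) ≤ 6 * n - 10 * (n : ℝ) ^ ((67 : ℝ) / 122) :=
  KT.upper_new

end Pool.Agent.Results.MP_c18ee8_co.UpperEntropy
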